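import Pool.Agent.H27.HB.TA
import Pool.Agent.H27.HB.TF

/-!
# Row GAP of hbe_modules: no centred function attains the spectral gap
-/

set_option autoImplicit false

namespace Pool.Agent.H51.HBE
open MeasureTheory Set Filter Topology Pool.Agent.H80.HS Pool.Agent.H93.HQ Pool.Agent.H27.HB
open scoped ContDiff ENNReal

theorem ww_pos {n : ℕ} (z : H n) : 0 < ww z := by
  unfold ww
  have h : 0 ≤ Pool.Agent.H93.HQ.sq z := by unfold Pool.Agent.H93.HQ.sq; positivity
  positivity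

theorem ofReal_two : ENNReal.ofReal (2 : ℝ) = 2 := by simp

theorem int_sq {n : ℕ} {h : H n → G n} (hh : MemLp h (ENNReal.ofReal 2)) :
    Integrable (fun z => ‖h z‖ ^ 2) := by
  rw [ofReal_two] at hh
  exact (memLp_two_iff_integrable_sq_norm hh.1).1 hh

theorem int_inner {n : ℕ} {h k : H n → G n} (hh : MemLp h (ENNReal.ofReal 2))
    (hk : MemLp k (ENNReal.ofReal 2)) : Integrable (fun z => inner ℝ (h z) (k z)) := by
  refine ((int_sq hh).add (int_sq hk)).mono (hh.1.inner hk.1) ?_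
  refine Filter.Eventually.of_forall fun z => ?_
  have h1 := abs_real_inner_le_norm (h z) (k z)
  rw [Real.norm_eq_abs, Real.norm_eq_abs]
  refine h1.trans (le_trans ?_ (le_abs_self _))
  show ‖h z‖ * ‖k z‖ ≤ ‖h z‖ ^ 2 + ‖k z‖ ^ 2
  nlinarith [sq_nonneg (‖h z‖ - ‖k z‖), sq_nonneg ‖h z‖, sq_nonneg ‖k z‖]

theorem ww_cont {n : ℕ} : Continuous (ww : H n → ℝ) := by
  unfold ww Pool.Agent.H93.HQ.sq
  fun_prop

theorem int_w {n : ℕ} {f k : H n → ℝ} (hf : AEStronglyMeasurable f) (hk : AEStronglyMeasurable k)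
    (h1 : Integrable (fun z => f z ^ 2 / ww z)) (h2 : Integrable (fun z => k z ^ 2 / ww z)) :
    Integrable (fun z => f z * k z / ww z) := by
  refine (h1.add h2).mono ((hf.aemeasurable.mul hk.aemeasurable).div
    ww_cont.aemeasurable).aestronglyMeasurable ?_
  refine Filter.Eventually.of_forall fun z => ?_
  have hw := ww_pos z
  rw [Real.norm_eq_abs, Real.norm_eq_abs]
  show |f z * k z / ww z| ≤ |f z ^ 2 / ww z + k z ^ 2 / ww z|
  rw [← add_div, abs_div, abs_div]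
  refine div_le_div_of_nonneg_right ?_ (abs_nonneg _)
  rw [abs_mul]
  refine le_trans ?_ (le_abs_self _)
  nlinarith [sq_nonneg (|f z| - |k z|), sq_abs (f z), sq_abs (k z), sq_nonneg (f z),
    sq_nonneg (k z)]

theorem quad_zero {A B C : ℝ} (hA : A ≤ 0) (h : ∀ s : ℝ, 0 ≤ A + 2 * s * B + s ^ 2 * C) :
    B = 0 := by
  by_contra hB
  have hB2 : 0 < B ^ 2 := by positivity
  obtain ⟨t, ht⟩ : ∃ t : ℝ, t = 1 / (|C| + 1) := ⟨_, rfl⟩
  have hC : 0 < |C| + 1 := by positivity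
  have ht0 : 0 < t := by rw [ht]; positivity
  have ht1 : t * |C| ≤ 1 := by
    rw [ht, div_mul_eq_mul_div, one_mul, div_le_one hC]
    linarith
  have h1 := h (-(B * t))
  have h2 : t * C ≤ 1 := (mul_le_mul_of_nonneg_left (le_abs_self C) ht0.le).trans ht1
  have h3 : (-(B * t)) ^ 2 * C = B ^ 2 * t * (t * C) := by ring
  have h4 : 2 * -(B * t) * B = -(2 * (B ^ 2 * t)) := by ring
  rw [h3, h4] at h1
  have h5 : B ^ 2 * t * (t * C) ≤ B ^ 2 * t * 1 := mul_le_mul_of_nonneg_left h2 (by positivity)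
  have h6 : 0 < B ^ 2 * t := by positivity
  linarith

theorem pf_GAP (hSGP : T_SGP) (hU0X : T_U0X) (hKR1 : T_KR1) (hCLA : T_CLA) (hCLT : T_CLT)
    (hGSI : T_GSI) : T_GAP := by
  intro n hn S hS f h hf hO hC hE
  have hn' : (0 : ℝ) < n := by exact_mod_cast hn
  have hS0 : 0 < S := hS.1
  obtain ⟨hExt, hup, huw, huE⟩ := hU0X n hn S hS
  have hp1 : (1 : ℝ) < 2 := by norm_num
  have hp2 : (2 : ℝ) < 2 * n + 2 := by linarith
  have hub : Cl 2 (ub n) (hg (ub n)) := hExt.1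
  obtain ⟨q, hq⟩ : ∃ q, q = ps n 2 := ⟨_, rfl⟩
  have hqv : q = 2 + 2 / n := by
    rw [hq]
    unfold ps
    have h0 : 2 * (n : ℝ) + 2 - 2 = 2 * n := by ring
    rw [h0]
    field_simp
  obtain ⟨a, ha⟩ : ∃ a : ℝ, a = 4 * (n : ℝ) ^ 2 / S := ⟨_, rfl⟩
  have ha0 : 0 < a := by rw [ha]; positivity
  have hu1 : ∀ z, ub n z ^ (q - 2) = a / ww z := by
    intro z
    have h1 := huw z
    rw [← hq] at h1
    rw [ha]
    have hw := ww_pos z
    field_simp at h1 ⊢
    linarith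
  have hu2 : ∀ z, ub n z ^ (q - 1) = a * ub n z / ww z := by
    intro z
    have h1 : q - 1 = (q - 2) + 1 := by ring
    rw [h1, Real.rpow_add_one (hup z).ne', hu1 z]
    ring
  have hA : ∀ k : H n → ℝ, ∫ z, ub n z ^ (ps n 2 - 1) * k z = a * ∫ z, ub n z * k z / ww z := by
    intro k
    rw [← integral_const_mul]
    refine integral_congr_ae (Filter.Eventually.of_forall fun z => ?_)
    show ub n z ^ (ps n 2 - 1) * k z = a * (ub n z * k z / ww z)
    rw [← hq, hu2 z]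
    ring
  have hB : ∀ k : H n → ℝ, ∫ z, ub n z ^ (ps n 2 - 2) * k z ^ 2 = a * ∫ z, k z ^ 2 / ww z := by
    intro k
    rw [← integral_const_mul]
    refine integral_congr_ae (Filter.Eventually.of_forall fun z => ?_)
    show ub n z ^ (ps n 2 - 2) * k z ^ 2 = a * (k z ^ 2 / ww z)
    rw [← hq, hu1 z]
    ring
  obtain ⟨Kc, hKc⟩ : ∃ Kc : ℝ, Kc = 4 * (n : ℝ) ^ 2 + 8 * n := ⟨_, rfl⟩
  have hlam : S * (ps n 2 - 1) * a = Kc := by
    rw [← hq, hqv, ha, hKc]
    field_simp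
    ring
  have hen : ∀ k : H n → G n, en 2 k = ∫ z, ‖k z‖ ^ 2 := by
    intro k
    unfold en
    simp only [Real.rpow_two]
  -- the form
  have hE' : ∫ z, ‖h z‖ ^ 2 ≤ Kc * ∫ z, f z ^ 2 / ww z := by
    rw [← hen, ← hlam]
    rw [hB f] at hE
    linarith
  have hpos : ∀ (k : H n → ℝ) (l : H n → G n), Cl 2 k l → ∫ z, ub n z * k z / ww z = 0 →
      Kc * ∫ z, k z ^ 2 / ww z ≤ ∫ z, ‖l z‖ ^ 2 := by
    intro k l hkl h0
    have h1 := (hSGP n hn S hS k l hkl (by rw [hA k, h0, mul_zero])).2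
    rw [hB k, hen] at h1
    rw [← hlam]
    linarith
  have hfO : ∫ z, ub n z * f z / ww z = 0 := by
    rw [hA f] at hO
    exact (mul_eq_zero.1 hO).resolve_left ha0.ne'
  have hw : ∀ (k : H n → ℝ) (l : H n → G n), Cl 2 k l →
      Integrable (fun z => k z ^ 2 / ww z) := fun k l hkl => (hGSI n hn k l hkl).1
  have hiw : ∀ (k k' : H n → ℝ) (l l' : H n → G n), Cl 2 k l → Cl 2 k' l' →
      Integrable (fun z => k z * k' z / ww z) := fun k k' l l' h1 h2 =>
    int_w h1.1.1 h2.1.1 (hw k l h1) (hw k' l' h2)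
  have hii : ∀ (k k' : H n → ℝ) (l l' : H n → G n), Cl 2 k l → Cl 2 k' l' →
      Integrable (fun z => inner ℝ (l z) (l' z)) := fun k k' l l' h1 h2 =>
    int_inner h1.2.1 h2.2.1
  have hfE : ∫ z, inner ℝ (h z) (hg (ub n) z) = 0 := by
    rw [huE f h hf, hO, mul_zero]
  -- the weak equation
  have hWS : WS ((n : ℝ) / 2) f h := by
    refine ⟨hf, fun ψ hψ => ?_⟩
    have hψC : Cl 2 ψ (hg ψ) := hCLT n hn 2 hp1 hp2 ψ hψ
    obtain ⟨c0, hc0⟩ : ∃ c0 : ℝ, c0 = ∫ z, ub n z * ub n z / ww z := ⟨_, rfl⟩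
    have hc0p : c0 ≠ 0 := by
      intro h0
      have h1 : ∫ z, |ub n z| ^ ps n 2 = 1 := hExt.2.1
      have h2 : ∫ z, |ub n z| ^ ps n 2 = a * c0 := by
        rw [hc0, ← hA (ub n)]
        refine integral_congr_ae (Filter.Eventually.of_forall fun z => ?_)
        show |ub n z| ^ ps n 2 = ub n z ^ (ps n 2 - 1) * ub n z
        rw [abs_of_pos (hup z), ← Real.rpow_add_one (hup z).ne', sub_add_cancel]
      rw [h2, h0, mul_zero] at h1
      exact zero_ne_one h1
    obtain ⟨c, hc⟩ : ∃ c : ℝ, c = (∫ z, ub n z * ψ z / ww z) / c0 := ⟨_, rfl⟩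
    obtain ⟨ψ', hψ'⟩ : ∃ ψ' : H n → ℝ, ψ' = fun z => 1 * ψ z + (-c) * ub n z := ⟨_, rfl⟩
    obtain ⟨l', hl'⟩ : ∃ l' : H n → G n, l' = fun z => (1 : ℝ) • hg ψ z + (-c) • hg (ub n) z :=
      ⟨_, rfl⟩
    have hC' : Cl 2 ψ' l' := by
      rw [hψ', hl']
      exact hCLA n hn 2 hp1 hp2 ψ (ub n) (hg ψ) (hg (ub n)) 1 (-c) hψC hub
    have hψO : ∫ z, ub n z * ψ' z / ww z = 0 := by
      have e1 : (fun z => ub n z * ψ' z / ww z) = fun z => ub n z * ψ z / ww z -
          c * (ub n z * ub n z / ww z) := by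
        funext z
        rw [hψ']
        ring
      rw [e1, integral_sub (hiw _ _ _ _ hub hψC) ((hiw _ _ _ _ hub hub).const_mul c),
        integral_const_mul, ← hc0, hc]
      field_simp
      ring
    obtain ⟨B, hBd⟩ : ∃ B : ℝ, B = (∫ z, inner ℝ (h z) (l' z)) -
      Kc * ∫ z, f z * ψ' z / ww z := ⟨_, rfl⟩
    have hB0 : B = 0 := by
      refine quad_zero (A := (∫ z, ‖h z‖ ^ 2) - Kc * ∫ z, f z ^ 2 / ww z)
        (C := (∫ z, ‖l' z‖ ^ 2) - Kc * ∫ z, ψ' z ^ 2 / ww z) (by linarith) fun s => ?_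
      have hCs := hCLA n hn 2 hp1 hp2 f ψ' h l' 1 s hf hC'
      have h1 := hpos _ _ hCs (by
        have e1 : (fun z => ub n z * (1 * f z + s * ψ' z) / ww z) = fun z =>
            ub n z * f z / ww z + s * (ub n z * ψ' z / ww z) := by
          funext z
          ring
        rw [e1, integral_add (hiw _ _ _ _ hub hf) ((hiw _ _ _ _ hub hC').const_mul s),
          integral_const_mul, hfO, hψO, mul_zero, add_zero])
      have e2 : ∫ z, (1 * f z + s * ψ' z) ^ 2 / ww z = (∫ z, f z ^ 2 / ww z) +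
          2 * s * (∫ z, f z * ψ' z / ww z) + s ^ 2 * ∫ z, ψ' z ^ 2 / ww z := by
        have e1 : (fun z => (1 * f z + s * ψ' z) ^ 2 / ww z) = fun z =>
            (f z ^ 2 / ww z + 2 * s * (f z * ψ' z / ww z)) + s ^ 2 * (ψ' z ^ 2 / ww z) := by
          funext z
          ring
        have i1 : Integrable (fun z => f z ^ 2 / ww z + 2 * s * (f z * ψ' z / ww z)) :=
          (hw f h hf).add ((hiw _ _ _ _ hf hC').const_mul _)
        rw [e1, integral_add i1 ((hw ψ' l' hC').const_mul _), integral_add (hw f h hf)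
          ((hiw _ _ _ _ hf hC').const_mul _), integral_const_mul, integral_const_mul]
      have e3 : ∫ z, ‖(1 : ℝ) • h z + s • l' z‖ ^ 2 = (∫ z, ‖h z‖ ^ 2) +
          2 * s * (∫ z, inner ℝ (h z) (l' z)) + s ^ 2 * ∫ z, ‖l' z‖ ^ 2 := by
        have e1 : (fun z => ‖(1 : ℝ) • h z + s • l' z‖ ^ 2) = fun z =>
            (‖h z‖ ^ 2 + 2 * s * inner ℝ (h z) (l' z)) + s ^ 2 * ‖l' z‖ ^ 2 := by
          funext z
          rw [norm_add_sq_real, one_smul, norm_smul, inner_smul_right, mul_pow,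
            Real.norm_eq_abs, sq_abs]
          ring
        have i1 : Integrable (fun z => ‖h z‖ ^ 2 + 2 * s * inner ℝ (h z) (l' z)) :=
          (int_sq hf.2.1).add ((hii _ _ _ _ hf hC').const_mul _)
        rw [e1, integral_add i1 ((int_sq hC'.2.1).const_mul _), integral_add (int_sq hf.2.1)
          ((hii _ _ _ _ hf hC').const_mul _), integral_const_mul, integral_const_mul]
      rw [e2, e3] at h1
      rw [hBd]
      linarith
    -- back to `ψ`
    have e4 : ∫ z, inner ℝ (h z) (l' z) = ∫ z, inner ℝ (h z) (hg ψ z) := by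
      have e1 : (fun z => inner ℝ (h z) (l' z)) = fun z => inner ℝ (h z) (hg ψ z) -
          c * inner ℝ (h z) (hg (ub n) z) := by
        funext z
        rw [hl']
        simp only
        rw [inner_add_right, one_smul, inner_smul_right]
        ring
      rw [e1, integral_sub (hii _ _ _ _ hf hψC) ((hii _ _ _ _ hf hub).const_mul c),
        integral_const_mul, hfE, mul_zero, sub_zero]
    have e5 : ∫ z, f z * ψ' z / ww z = ∫ z, f z * ψ z / ww z := by
      have e1 : (fun z => f z * ψ' z / ww z) = fun z => f z * ψ z / ww z -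
          c * (ub n z * f z / ww z) := by
        funext z
        rw [hψ']
        ring
      rw [e1, integral_sub (hiw _ _ _ _ hf hψC) ((hiw _ _ _ _ hub hf).const_mul c),
        integral_const_mul, hfO, mul_zero, sub_zero]
    rw [hBd, e4, e5] at hB0
    have e6 : 4 * (n : ℝ) ^ 2 + 16 * ((n : ℝ) / 2) = Kc := by
      rw [hKc]
      ring
    rw [e6]
    linarith
  -- the centring
  obtain ⟨κ, hκ⟩ : ∃ κ : ℝ, κ = ms (ps n 2) (u0 n) ^ (-(1 / ps n 2)) := ⟨_, rfl⟩
  have hub0 : ∀ z, ub n z = κ * u0 n z := fun z => by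
    rw [hκ]
    rfl
  have hκ0 : κ ≠ 0 := by
    intro h0
    have h1 := hup 0
    rw [hub0, h0, zero_mul] at h1
    exact lt_irrefl _ h1
  have hconv : ∀ k : H n → ℝ, ∫ z, ub n z ^ (ps n 2 - 1) * k z =
      a * κ * ∫ z, u0 n z / ww z * k z := by
    intro k
    rw [hA k, mul_assoc]
    congr 1
    rw [← integral_const_mul]
    refine integral_congr_ae (Filter.Eventually.of_forall fun z => ?_)
    show ub n z * k z / ww z = κ * (u0 n z / ww z * k z)
    rw [hub0 z]
    ring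
  have haκ : a * κ ≠ 0 := mul_ne_zero ha0.ne' hκ0
  refine hKR1 n hn f h hWS ?_ ?_
  · rw [hconv f] at hO
    exact (mul_eq_zero.1 hO).resolve_left haκ
  · intro i b
    have h1 := hC i b
    have h2 : ∫ z, ub n z ^ (ps n 2 - 1) * f z * rz i b z =
        a * κ * ∫ z, u0 n z / ww z * f z * rz i b z := by
      have h3 := hconv fun z => f z * rz i b z
      simp only [← mul_assoc] at h3 ⊢
      exact h3
    rw [h2] at h1
    exact (mul_eq_zero.1 h1).resolve_left haκ

end Pool.Agent.H51.HBE
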